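import Pool.Agent.Q276.DA.Stm

/-!
# Project DA (helper276): `S` drops away from the saddle point
-/

set_option autoImplicit false

namespace Pool.Agent.Q275.DA

open Complex
open Pool.Agent.Q276.DA

/-- the real part of the exponent -/
lemma H_re (ρ u0 v : ℝ) (h : (e ρ (1 + (u0 : ℂ) * I)).re = 0) : (H ρ u0 v).re = S ρ (u0 + v) - S ρ u0 := by
  unfold H S
  have e1 : (ρ : ℂ) * I * (G (zp ρ (u0 + v)) - G (zp ρ u0)) =
      (ρ : ℂ) * (I * (G (zp ρ (u0 + v)) - G (zp ρ u0))) := by ring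
  have e2 : e ρ (1 + (u0 : ℂ) * I) * (v : ℂ) = (v : ℂ) * e ρ (1 + (u0 : ℂ) * I) := by ring
  rw [Complex.sub_re, e1, e2, Complex.re_ofReal_mul, Complex.re_ofReal_mul, h, Complex.I_mul_re,
    Complex.sub_im]
  ring

/-- the derivative in terms of `T` -/
lemma e_eq_T (ρ u : ℝ) : (e ρ (1 + (u : ℂ) * I)).re = T ρ u / (24 * (1 + u ^ 2) ^ 2) := by
  unfold T
  have : (24 * (1 + u ^ 2) ^ 2 : ℝ) ≠ 0 := by positivity
  field_simp

theorem t_DROP (h1 : S_ROOT) (h2 : S_MONO) (h3 : S_LOW) (h4 : S_MID) (h5 : S_FARA) (h6 : S_LOC) :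
    S_DROP := by
  intro ρ u0 hρ hρ2 hu1 hu2 he u hu hdist
  have hpi3 := Real.pi_gt_d2
  have hpi4 := Real.pi_lt_d2
  obtain ⟨w, hw1, hw2, hw3, hw4, hw5⟩ := h1 ρ hρ hρ2
  have hT0 : T ρ u0 = 0 := by unfold T; rw [he, mul_zero]
  have hu0w : u0 = w := by
    rcases lt_trichotomy u0 w with h | h | h
    · have := hw4 u0 (by linarith) h
      linarith
    · exact h
    · have := hw5 u0 h (by linarith) (by nlinarith)
      linarith
  subst hu0w
  have hcont : Continuous (S ρ) := by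
    rw [continuous_iff_continuousAt]
    exact fun v => (h2 ρ v hρ).1.continuousAt
  have hder : ∀ v, deriv (S ρ) v = T ρ v / (24 * (1 + v ^ 2) ^ 2) := fun v => by
    rw [(h2 ρ v hρ).1.deriv, e_eq_T]
  set M : ℝ := min 3 (Real.pi / ρ) with hM
  have hM3 : M ≤ 3 := min_le_left _ _
  have hMp : M ≤ Real.pi / ρ := min_le_right _ _
  have hpr : 1.08 ≤ Real.pi / ρ := by
    rw [le_div_iff₀ hρ]; nlinarith
  have hM1 : 1.08 ≤ M := le_min (by norm_num) hpr
  -- monotonicity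
  have hup : StrictMonoOn (S ρ) (Set.Icc 0 u0) := by
    refine strictMonoOn_of_deriv_pos (convex_Icc _ _) hcont.continuousOn fun v hv => ?_
    rw [interior_Icc] at hv
    rw [hder]
    have := hw4 v hv.1.le hv.2
    positivity
  have hdown : StrictAntiOn (S ρ) (Set.Icc u0 M) := by
    refine strictAntiOn_of_deriv_neg (convex_Icc _ _) hcont.continuousOn fun v hv => ?_
    rw [interior_Icc] at hv
    rw [hder]
    have h7 : ρ * v ≤ Real.pi := by
      have h8 : v ≤ Real.pi / ρ := hv.2.le.trans hMp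
      rw [le_div_iff₀ hρ] at h8
      linarith
    have := hw5 v hv.1 (hv.2.le.trans hM3) h7
    exact div_neg_of_neg_of_pos this (by positivity)
  -- the local drop
  obtain ⟨a, ha1, ha2, ha3⟩ := h6 ρ u0 hρ hρ2 hu1 hu2 he
  have hloc : ∀ v : ℝ, |v| = 1 / 1000 → S ρ (u0 + v) ≤ S ρ u0 - 6 / 10 ^ 8 := by
    intro v hv
    have h7 := ha3 v (by rw [hv]; norm_num)
    have h8 : (H ρ u0 v + a * (v : ℂ) ^ 2 / 2).re ≤ 50 * |v| ^ 3 := (Complex.re_le_norm _).trans h7
    have e1 : a * (v : ℂ) ^ 2 / 2 = ((v ^ 2 / 2 : ℝ) : ℂ) * a := by push_cast; ring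
    have hv2 : v ^ 2 = 1 / 1000000 := by
      rw [← sq_abs, hv]; norm_num
    rw [Complex.add_re, H_re ρ u0 v he, e1, Complex.re_ofReal_mul, hv, hv2] at h8
    have h9 : (1 / 1000000 / 2 : ℝ) * (23 / 100) ≤ 1 / 1000000 / 2 * a.re :=
      mul_le_mul_of_nonneg_left ha1 (by norm_num)
    norm_num at h8 h9 ⊢
    linarith
  have hS0 : S ρ 0 = 0 := by
    have := (h2 ρ 0 hρ).2.1
    rw [neg_zero] at this
    linarith
  have hSm : S ρ (u0 + -(1 / 1000)) ≤ S ρ u0 - 6 / 10 ^ 8 :=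
    hloc _ (by rw [abs_neg, abs_of_pos (by norm_num)])
  have hSp : S ρ (u0 + 1 / 1000) ≤ S ρ u0 - 6 / 10 ^ 8 := hloc _ (abs_of_pos (by norm_num))
  have hS0u : 6 / 10 ^ 8 ≤ S ρ u0 := by
    have h7 : S ρ 0 < S ρ (u0 + -(1 / 1000)) :=
      hup ⟨le_rfl, by linarith⟩ ⟨by linarith, by linarith⟩ (by linarith)
    linarith
  have hmax : ∀ v, 0 ≤ v → v ≤ M → S ρ v ≤ S ρ u0 := by
    intro v hv0 hvM
    rcases le_total v u0 with h | h
    · exact hup.monotoneOn ⟨hv0, h⟩ ⟨by linarith, le_rfl⟩ h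
    · exact hdown.antitoneOn ⟨le_rfl, by linarith⟩ ⟨h, hvM⟩ h
  have hS1 : S ρ 1 ≤ S ρ u0 := hmax 1 (by norm_num) (by linarith)
  -- large arguments
  have hfar : ∀ v, 3 ≤ v → v ≤ Real.pi / ρ → |S ρ v| ≤ S ρ u0 - 1 / 20 := by
    intro v hv hvp
    have hrv : ρ * v ≤ Real.pi := by
      rw [le_div_iff₀ hρ] at hvp
      linarith
    rcases le_total v 5 with h | h
    · have := h4 ρ v hρ hv h hrv
      linarith
    · have hr5 : 5 * ρ ≤ Real.pi := by nlinarith
      have h7 := h5 ρ v hρ (by linarith) hrv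
      have h8 := h3 ρ hρ (by linarith)
      have h9 : v / (1 + v ^ 2) ≤ 5 / 26 := by
        rw [div_le_div_iff₀ (by positivity) (by norm_num)]
        nlinarith
      have h10 : ρ * Real.pi / 8 ≤ Real.pi ^ 2 / 40 := by nlinarith
      have h11 : Real.pi ^ 2 ≤ 10 := by nlinarith
      have h12 : 0 ≤ ρ ^ 2 / 24 := by positivity
      have h13 : (9.85 : ℝ) ≤ Real.pi ^ 2 := by nlinarith
      linarith
  -- nonnegative arguments
  have hpos : ∀ v, 0 ≤ v → v ≤ Real.pi / ρ → 1 / 1000 ≤ |v - u0| → S ρ v ≤ S ρ u0 - 5 / 10 ^ 8 := by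
    intro v hv hvp hd
    rcases le_total v 3 with h | h
    · have hvM : v ≤ M := le_min h hvp
      rcases le_total v u0 with h7 | h7
      · rw [abs_of_nonpos (by linarith)] at hd
        have h8 : S ρ v ≤ S ρ (u0 + -(1 / 1000)) :=
          hup.monotoneOn ⟨hv, h7⟩ ⟨by linarith, by linarith⟩ (by linarith)
        have h9 : (5 / 10 ^ 8 : ℝ) ≤ 6 / 10 ^ 8 := by norm_num
        linarith
      · rw [abs_of_nonneg (by linarith)] at hd
        have h8 : S ρ v ≤ S ρ (u0 + 1 / 1000) :=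
          hdown.antitoneOn ⟨by linarith, by linarith⟩ ⟨h7, hvM⟩ (by linarith)
        have h9 : (5 / 10 ^ 8 : ℝ) ≤ 6 / 10 ^ 8 := by norm_num
        linarith
    · have h7 := hfar v h hvp
      have h8 := le_abs_self (S ρ v)
      have h9 : (5 / 10 ^ 8 : ℝ) ≤ 1 / 20 := by norm_num
      linarith
  rcases le_total 0 u with h0 | h0
  · exact hpos u h0 (by rwa [abs_of_nonneg h0] at hu) hdist
  · -- negative arguments
    rw [abs_of_nonpos h0] at hu
    obtain ⟨v, rfl⟩ : ∃ v, u = -v := ⟨-u, by ring⟩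
    rw [neg_neg] at hu
    have hv0 : 0 ≤ v := by linarith
    rw [(h2 ρ v hρ).2.1]
    have h9 : (5 / 10 ^ 8 : ℝ) ≤ 1 / 20 := by norm_num
    have h9' : (5 / 10 ^ 8 : ℝ) ≤ 6 / 10 ^ 8 := by norm_num
    rcases le_total v 3 with h | h
    · have hvM : v ≤ M := le_min h hu
      rcases le_total v u0 with h7 | h7
      · have h8 : S ρ 0 ≤ S ρ v := hup.monotoneOn ⟨le_rfl, by linarith⟩ ⟨hv0, h7⟩ hv0
        linarith
      · have h8 : S ρ M ≤ S ρ v := hdown.antitoneOn ⟨h7, hvM⟩ ⟨by linarith, le_rfl⟩ hvM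
        rcases le_total 3 (Real.pi / ρ) with h10 | h10
        · have e1 : M = 3 := min_eq_left h10
          have h11 := hfar 3 le_rfl h10
          have h12 := neg_abs_le (S ρ 3)
          rw [e1] at h8
          linarith
        · have e1 : M = Real.pi / ρ := min_eq_right h10
          have h11 := (h2 ρ u0 hρ).2.2
          rw [e1, h11] at h8
          linarith
    · have h7 := hfar v h hu
      have h8 := neg_abs_le (S ρ v)
      linarith

end Pool.Agent.Q275.DA
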