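import Pool.Agent.Q276.DA.Stm

/-!
# Project DA (helper276): Cauchy integral for the coefficients
-/

set_option autoImplicit false

namespace Pool.Agent.Q275.DA

open Complex Metric Set
open Pool.Agent.Q276.DA

/-- the coefficients of the logarithm -/
noncomputable def lc (k : ℕ) : ℂ := (sg k : ℂ) / (k : ℂ)

lemma lc_zero : lc 0 = 0 := by simp [lc]

/-- the logarithm as a function of `q` -/
noncomputable def L (q : ℂ) : ℂ := ∑' k : ℕ, lc k * q ^ k

lemma exp_pow_eq (z : ℂ) (k : ℕ) : cexp (-z) ^ (k + 1) = cexp (-((k : ℂ) + 1) * z) := by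
  rw [← Complex.exp_nat_mul]
  congr 1
  push_cast
  ring

lemma term_eq (z : ℂ) (k : ℕ) : lc (k + 1) * cexp (-z) ^ (k + 1) =
    (sg (k + 1) : ℂ) / ((k : ℂ) + 1) * cexp (-((k : ℂ) + 1) * z) := by
  rw [exp_pow_eq]
  unfold lc
  push_cast
  rfl

lemma summable_exp (h : S_SER) {z : ℂ} (hz : 0 < z.re) : Summable fun k : ℕ => lc k * cexp (-z) ^ k := by
  rw [← summable_nat_add_iff 1]
  exact (h.1 z hz).2.1.congr fun k => (term_eq z k).symm

lemma summable_L (h : S_SER) {q : ℂ} (hq : ‖q‖ < 1) : Summable fun k : ℕ => lc k * q ^ k := by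
  by_cases h0 : q = 0
  · subst h0
    refine summable_zero.congr fun k => ?_
    rcases Nat.eq_zero_or_pos k with rfl | hk
    · rw [lc_zero, zero_mul]
    · rw [zero_pow hk.ne', mul_zero]
  · have h1 : q = cexp (-(-Complex.log q)) := by rw [neg_neg, Complex.exp_log h0]
    have h2 : 0 < (-Complex.log q).re := by
      rw [Complex.neg_re, Complex.log_re]
      have := Real.log_neg (norm_pos_iff.2 h0) hq
      linarith
    have h3 := summable_exp h h2
    rw [← h1] at h3
    exact h3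

lemma L_exp (h : S_SER) {z : ℂ} (hz : 0 < z.re) : L (cexp (-z)) = G z := by
  unfold L G
  rw [(summable_exp h hz).tsum_eq_zero_add, lc_zero, zero_mul, zero_add]
  exact tsum_congr fun k => term_eq z k

lemma L_series (h : S_SER) : HasFPowerSeriesOnBall L (.ofScalars ℂ lc) 0 1 := by
  constructor
  · refine le_of_forall_lt_imp_le_of_dense fun r hr ↦ ?_
    lift r to NNReal using hr.ne_top
    apply FormalMultilinearSeries.le_radius_of_summable
    have h1 := (summable_L h (q := ((r : ℝ) : ℂ)) (by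
      rw [Complex.norm_real, Real.norm_eq_abs, NNReal.abs_eq]
      exact_mod_cast hr)).norm
    refine h1.congr fun k => ?_
    rw [norm_mul, norm_pow, Complex.norm_real, Real.norm_eq_abs, NNReal.abs_eq,
      FormalMultilinearSeries.ofScalars_norm]
  · simp
  · intro y hy
    rw [← ENNReal.coe_one, Metric.eball_coe, NNReal.coe_one, mem_ball_zero_iff] at hy
    have h1 := (summable_L h hy).hasSum
    rw [zero_add]
    have e : (fun k : ℕ => (FormalMultilinearSeries.ofScalars ℂ lc) k fun _ => y) =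
        fun k : ℕ => lc k * y ^ k := by
      funext k
      simp [mul_comm]
    rw [e]
    exact h1

lemma L_iter (h : S_SER) (k : ℕ) : iteratedDeriv k L 0 = (k.factorial : ℂ) * lc k := by
  have h1 := (L_series h).factorial_smul 1 k
  rw [iteratedDeriv_eq_iteratedFDeriv, ← h1]
  simp

lemma L_diff (h : S_SER) : DifferentiableOn ℂ L (ball 0 1) := by
  have h1 := (L_series h).differentiableOn
  rwa [← ENNReal.coe_one, Metric.eball_coe, NNReal.coe_one] at h1

/-- the generating function -/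
noncomputable def F (x q : ℂ) : ℂ := cexp (x * L q)

lemma F_diff (h : S_SER) (x : ℂ) : DifferentiableOn ℂ (F x) (ball 0 1) :=
  ((L_diff h).const_mul x).cexp

lemma F_deriv (h : S_SER) (x : ℂ) {q : ℂ} (hq : q ∈ ball (0 : ℂ) 1) :
    deriv (F x) q = (x * deriv L q) * F x q := by
  have h1 : HasDerivAt L (deriv L q) q := ((L_diff h).differentiableAt (isOpen_ball.mem_nhds hq)).hasDerivAt
  have h2 := ((h1.const_mul x).cexp).deriv
  have h3 : deriv (F x) q = cexp (x * L q) * (x * deriv L q) := h2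
  rw [h3]
  unfold F
  ring

lemma F_iter (h : S_SER) (hR : S_REC) (x : ℂ) (n : ℕ) :
    iteratedDeriv n (F x) 0 = (n.factorial : ℂ) * P x n := by
  have h0 : (0 : ℂ) ∈ ball (0 : ℂ) 1 := mem_ball_self one_pos
  have hFan : AnalyticAt ℂ (F x) 0 := (F_diff h x).analyticAt (isOpen_ball.mem_nhds h0)
  have hLan : AnalyticAt ℂ L 0 := (L_diff h).analyticAt (isOpen_ball.mem_nhds h0)
  induction n using Nat.strong_induction_on with
  | _ n ih =>
    rcases n with _ | n
    · rw [iteratedDeriv_zero, hR.1]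
      have h1 := L_iter h 0
      rw [iteratedDeriv_zero, lc_zero, mul_zero] at h1
      unfold F
      rw [h1]
      simp
    · have hev : deriv (F x) =ᶠ[nhds 0] fun q => (x * deriv L q) * F x q := by
        filter_upwards [isOpen_ball.mem_nhds h0] with q hq
        exact F_deriv h x hq
      have hc : ContDiffAt ℂ n (fun q => x * deriv L q) 0 :=
        (analyticAt_const.mul hLan.deriv).contDiffAt
      rw [iteratedDeriv_succ', Filter.EventuallyEq.iteratedDeriv_eq n hev,
        iteratedDeriv_fun_mul hc hFan.contDiffAt]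
      have h2 : ∀ i ∈ Finset.range (n + 1),
          (n.choose i : ℂ) * iteratedDeriv i (fun q => x * deriv L q) 0 * iteratedDeriv (n - i) (F x) 0 =
          (n.factorial : ℂ) * (x * ((sg (i + 1) : ℂ) * P x (n - i))) := by
        intro i hi
        have hin : i ≤ n := Nat.lt_succ_iff.1 (Finset.mem_range.1 hi)
        rw [iteratedDeriv_const_mul_field, ← iteratedDeriv_succ', L_iter h, ih (n - i) (by omega),
          ← Nat.choose_mul_factorial_mul_factorial hin]
        have h3 : ((i + 1).factorial : ℂ) * lc (i + 1) = (i.factorial : ℂ) * (sg (i + 1) : ℂ) := by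
          have h4 : ((i : ℂ) + 1) ≠ 0 := Nat.cast_add_one_ne_zero i
          unfold lc
          rw [Nat.factorial_succ]
          push_cast
          field_simp
        rw [h3]
        push_cast
        ring
      rw [Finset.sum_congr rfl h2, ← Finset.mul_sum, ← Finset.mul_sum, ← hR.2.1, Nat.factorial_succ]
      push_cast
      ring

theorem t_INT (hR : S_REC) (h : S_SER) : S_INT := by
  intro x n ρ hρ
  have hpi := Real.pi_pos
  set g : ℝ → ℂ := fun θ => cexp (x * G ((ρ : ℂ) - θ * I) + (n : ℂ) * ((ρ : ℂ) - θ * I)) with hg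
  have hre : ∀ θ : ℝ, 0 < ((ρ : ℂ) - θ * I).re := fun θ => by simpa using hρ
  have hR1 : Real.exp (-ρ) < 1 := Real.exp_lt_one_iff.2 (by linarith)
  -- the Cauchy formula
  have h1 := ((F_diff h x).mono (closedBall_subset_ball hR1)).circleIntegral_one_div_sub_center_pow_smul
    (Real.exp_pos (-ρ)) n
  rw [F_iter h hR, circleIntegral] at h1
  have h2 : ∀ θ : ℝ, deriv (circleMap 0 (Real.exp (-ρ))) θ •
      ((1 / (circleMap 0 (Real.exp (-ρ)) θ - 0) ^ (n + 1)) • F x (circleMap 0 (Real.exp (-ρ)) θ)) =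
      I * g θ := by
    intro θ
    have e1 : circleMap 0 (Real.exp (-ρ)) θ = cexp (-((ρ : ℂ) - θ * I)) := by
      rw [circleMap_zero, Complex.ofReal_exp, ← Complex.exp_add]
      congr 1
      push_cast
      ring
    have e2 : F x (cexp (-((ρ : ℂ) - θ * I))) = cexp (x * G ((ρ : ℂ) - θ * I)) := by
      unfold F
      rw [L_exp h (hre θ)]
    have hne : cexp (-((ρ : ℂ) - θ * I)) ≠ 0 := Complex.exp_ne_zero _
    have e3 : (1 / cexp (-((ρ : ℂ) - θ * I)) ^ (n + 1)) * cexp (-((ρ : ℂ) - θ * I)) =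
        cexp ((n : ℂ) * ((ρ : ℂ) - θ * I)) := by
      rw [pow_succ]
      have e4 : (1 / (cexp (-((ρ : ℂ) - θ * I)) ^ n * cexp (-((ρ : ℂ) - θ * I)))) *
          cexp (-((ρ : ℂ) - θ * I)) = (cexp (-((ρ : ℂ) - θ * I)) ^ n)⁻¹ := by
        field_simp
      rw [e4, ← Complex.exp_nat_mul, ← Complex.exp_neg]
      congr 1
      ring
    rw [deriv_circleMap, e1, sub_zero, e2, smul_eq_mul, smul_eq_mul, hg]
    simp only
    rw [Complex.exp_add, ← e3]
    ring
  have h3 : ∫ θ in (0 : ℝ)..(2 * Real.pi), I * g θ = (2 * Real.pi * I / (n.factorial : ℂ)) •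
      ((n.factorial : ℂ) * P x n) := by
    rw [← h1]
    exact intervalIntegral.integral_congr fun θ _ => (h2 θ).symm
  rw [intervalIntegral.integral_const_mul, smul_eq_mul] at h3
  have hfac : (n.factorial : ℂ) ≠ 0 := by exact_mod_cast n.factorial_ne_zero
  have h4 : ∫ θ in (0 : ℝ)..(2 * Real.pi), g θ = 2 * Real.pi * P x n := by
    have e : 2 * (Real.pi : ℂ) * I / (n.factorial : ℂ) * ((n.factorial : ℂ) * P x n) =
        I * (2 * Real.pi * P x n) := by
      field_simp
    rw [e] at h3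
    exact mul_left_cancel₀ Complex.I_ne_zero h3
  -- periodicity
  have hper : Function.Periodic g (2 * Real.pi) := by
    intro θ
    have e1 := (h.2.2 ((ρ : ℂ) - ((θ + 2 * Real.pi : ℝ) : ℂ) * I)).2
    have e2 : (ρ : ℂ) - ((θ + 2 * Real.pi : ℝ) : ℂ) * I + 2 * Real.pi * I = (ρ : ℂ) - θ * I := by
      push_cast
      ring
    rw [e2] at e1
    have e3 : cexp ((n : ℂ) * ((ρ : ℂ) - ((θ + 2 * Real.pi : ℝ) : ℂ) * I)) =
        cexp ((n : ℂ) * ((ρ : ℂ) - θ * I)) := by
      have e4 : (n : ℂ) * ((ρ : ℂ) - θ * I) = (n : ℂ) * ((ρ : ℂ) - ((θ + 2 * Real.pi : ℝ) : ℂ) * I) +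
          n * (2 * Real.pi * I) := by
        push_cast
        ring
      rw [e4, Complex.exp_add, Complex.exp_nat_mul_two_pi_mul_I, mul_one]
    show cexp (x * G ((ρ : ℂ) - ((θ + 2 * Real.pi : ℝ) : ℂ) * I) +
      (n : ℂ) * ((ρ : ℂ) - ((θ + 2 * Real.pi : ℝ) : ℂ) * I)) = _
    rw [Complex.exp_add, e3, ← e1, ← Complex.exp_add]
  have h5 := hper.intervalIntegral_add_eq 0 (-Real.pi)
  rw [zero_add, h4] at h5
  have e5 : -Real.pi + 2 * Real.pi = Real.pi := by ring
  rw [e5] at h5
  -- substitution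
  have h6 : ∫ u in (-(Real.pi / ρ))..(Real.pi / ρ), g (-ρ * u) =
      (ρ : ℂ)⁻¹ * ∫ θ in (-Real.pi)..Real.pi, g θ := by
    rw [intervalIntegral.integral_comp_mul_left (fun θ => g θ) (by linarith : -ρ ≠ 0)]
    have e6 : -ρ * -(Real.pi / ρ) = Real.pi := by field_simp
    have e7 : -ρ * (Real.pi / ρ) = -Real.pi := by field_simp
    rw [e6, e7, intervalIntegral.integral_symm]
    rw [Complex.real_smul]
    push_cast
    have hρ' : (ρ : ℂ) ≠ 0 := by exact_mod_cast hρ.ne'
    field_simp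
  have h7 : ∫ u in (-(Real.pi / ρ))..(Real.pi / ρ), cexp (x * G (zp ρ u) + (n : ℂ) * zp ρ u) =
      ∫ u in (-(Real.pi / ρ))..(Real.pi / ρ), g (-ρ * u) := by
    refine intervalIntegral.integral_congr fun u _ => ?_
    have e8 : zp ρ u = (ρ : ℂ) - ((-ρ * u : ℝ) : ℂ) * I := by
      unfold zp
      push_cast
      ring
    show cexp (x * G (zp ρ u) + (n : ℂ) * zp ρ u) = cexp (x * G ((ρ : ℂ) - ((-ρ * u : ℝ) : ℂ) * I) +
      (n : ℂ) * ((ρ : ℂ) - ((-ρ * u : ℝ) : ℂ) * I))
    rw [e8]
  rw [h7, h6, ← h5]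
  have hρ' : (ρ : ℂ) ≠ 0 := by exact_mod_cast hρ.ne'
  have hpi' : (Real.pi : ℂ) ≠ 0 := by exact_mod_cast hpi.ne'
  field_simp

end Pool.Agent.Q275.DA
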