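import Pool.Agent.Q276.DA.Stm

/-!
# Project DA (helper276): derivative of `S`, oddness, and the lower bound at `1`
-/

set_option autoImplicit false

namespace Pool.Agent.Q275.DA

open Complex
open Pool.Agent.Q276.DA

lemma zp_re (ρ u : ℝ) : (zp ρ u).re = ρ := by simp [zp]

lemma zp_im (ρ u : ℝ) : (zp ρ u).im = ρ * u := by simp [zp]

lemma zp_conj (ρ u : ℝ) : zp ρ (-u) = (starRingEnd ℂ) (zp ρ u) := by
  apply Complex.ext
  · rw [Complex.conj_re, zp_re, zp_re]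
  · rw [Complex.conj_im, zp_im, zp_im]; ring

lemma zp_deriv (ρ u : ℝ) : HasDerivAt (fun v : ℝ => zp ρ v) ((ρ : ℂ) * I) u := by
  have h1 : HasDerivAt (fun v : ℝ => (v : ℂ)) 1 u := Complex.ofRealCLM.hasDerivAt
  have h2 := ((h1.mul_const I).const_add 1).const_mul (ρ : ℂ)
  rw [one_mul] at h2
  exact h2

lemma G_zp_deriv (h : S_SER) {ρ : ℝ} (hρ : 0 < ρ) (u : ℝ) :
    HasDerivAt (fun v : ℝ => G (zp ρ v)) (-E (zp ρ u) * ((ρ : ℂ) * I)) u := by
  have h1 : HasDerivAt G (-E (zp ρ u)) (zp ρ u) := (h.1 (zp ρ u) (by rw [zp_re]; exact hρ)).2.2.1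
  exact HasDerivAt.comp u h1 (zp_deriv ρ u)

theorem t_MONO (h : S_SER) : S_MONO := by
  intro ρ u hρ
  refine ⟨?_, ?_, ?_⟩
  · have h1 := G_zp_deriv h hρ u
    have h2 : HasDerivAt (fun v : ℝ => (G (zp ρ v)).im) ((-E (zp ρ u) * ((ρ : ℂ) * I)).im) u :=
      Complex.imCLM.hasFDerivAt.comp_hasDerivAt u h1
    have h3 := h2.const_mul (-ρ)
    have e1 : -ρ * (-E (zp ρ u) * ((ρ : ℂ) * I)).im = (e ρ (1 + (u : ℂ) * I)).re := by
      have e2 : e ρ (1 + (u : ℂ) * I) = ((ρ ^ 2 : ℝ) : ℂ) * E (zp ρ u) := by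
        unfold e zp
        push_cast
        ring
      rw [e2, Complex.re_ofReal_mul]
      have e3 : (-E (zp ρ u) * ((ρ : ℂ) * I)).im = -(ρ * (E (zp ρ u)).re) := by
        have : -E (zp ρ u) * ((ρ : ℂ) * I) = ((-ρ : ℝ) : ℂ) * (E (zp ρ u) * I) := by push_cast; ring
        rw [this, Complex.im_ofReal_mul]
        simp
      rw [e3]
      ring
    rw [e1] at h3
    exact h3
  · unfold S
    rw [zp_conj, (h.2.1 _).2, Complex.conj_im]
    ring
  · have h1 : (starRingEnd ℂ) (zp ρ (Real.pi / ρ)) + 2 * Real.pi * I = zp ρ (Real.pi / ρ) := by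
      have e1 : ρ * (Real.pi / ρ) = Real.pi := by field_simp
      apply Complex.ext
      · rw [Complex.add_re, Complex.conj_re]
        simp
      · rw [Complex.add_im, Complex.conj_im, zp_im, e1]
        simp
        ring
    have h2 := (h.2.2 ((starRingEnd ℂ) (zp ρ (Real.pi / ρ)))).2
    rw [h1, (h.2.1 _).2] at h2
    have h3 := congrArg Complex.im h2
    rw [Complex.conj_im] at h3
    unfold S
    have : (G (zp ρ (Real.pi / ρ))).im = 0 := by linarith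
    rw [this, mul_zero]

theorem t_LOW (h1 : S_MODS) (h2 : S_BND) : S_LOW := by
  intro ρ hρ h3
  have hpi := Real.pi_pos
  have hpi3 := Real.pi_gt_three
  have hpi4 := Real.pi_lt_four
  have h4 := h1 ρ 1 hρ
  rw [Real.arctan_one] at h4
  have hre : 18 ≤ ((4 * (Real.pi : ℂ) ^ 2 / zp ρ 1)).re := by
    have e1 : (4 * (Real.pi : ℂ) ^ 2 / zp ρ 1).re = 2 * Real.pi ^ 2 / ρ := by
      have e2 : 4 * (Real.pi : ℂ) ^ 2 / zp ρ 1 = ((2 * Real.pi ^ 2 / ρ : ℝ) : ℂ) * (1 - I) := by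
        have hz : zp ρ 1 ≠ 0 := by
          intro h
          have := congrArg Complex.re h
          rw [zp_re] at this
          simp at this
          linarith
        have hρ' : (ρ : ℂ) ≠ 0 := by exact_mod_cast hρ.ne'
        rw [div_eq_iff hz]
        unfold zp
        push_cast
        field_simp
        ring_nf
        rw [Complex.I_sq]
        ring
      rw [e2, Complex.re_ofReal_mul]
      simp
    rw [e1, le_div_iff₀ hρ]
    nlinarith
  have h5 := ((h2 (4 * (Real.pi : ℂ) ^ 2 / zp ρ 1)).2.2.2.1) (by linarith)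
  have hexp : Real.exp (-(4 * (Real.pi : ℂ) ^ 2 / zp ρ 1).re) ≤ 1 / 100000 := by
    have h6 : Real.exp (-(4 * (Real.pi : ℂ) ^ 2 / zp ρ 1).re) ≤ Real.exp (-18) :=
      Real.exp_le_exp.2 (by linarith)
    refine h6.trans ?_
    have h7 : Real.exp (-18) = (Real.exp 18)⁻¹ := Real.exp_neg _
    have h8 : (2 : ℝ) ^ 18 ≤ Real.exp 18 := by
      have e3 : Real.exp 18 = Real.exp 1 ^ 18 := by
        rw [← Real.exp_nat_mul]
        norm_num
      rw [e3]
      have := Real.exp_one_gt_d9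
      exact pow_le_pow_left₀ (by norm_num) (by linarith) 18
    rw [h7]
    calc (Real.exp 18)⁻¹ ≤ ((2 : ℝ) ^ 18)⁻¹ := inv_anti₀ (by positivity) h8
      _ ≤ 1 / 100000 := by norm_num
  have h9 : ρ * ‖G (4 * (Real.pi : ℂ) ^ 2 / zp ρ 1)‖ ≤ 1 / 10000 := by
    have h10 : ‖G (4 * (Real.pi : ℂ) ^ 2 / zp ρ 1)‖ ≤ 23 / 20 * (1 / 100000) :=
      h5.trans (mul_le_mul_of_nonneg_left hexp (by norm_num))
    have h11 : ρ ≤ 4 / 3 := by linarith
    calc ρ * ‖G (4 * (Real.pi : ℂ) ^ 2 / zp ρ 1)‖ ≤ 4 / 3 * (23 / 20 * (1 / 100000)) :=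
          mul_le_mul h11 h10 (norm_nonneg _) (by norm_num)
      _ ≤ 1 / 10000 := by norm_num
  have h12 := (abs_le.1 h4).1
  have e4 : Real.pi ^ 2 / 6 * (1 / (1 + 1 ^ 2)) - ρ / 2 * (Real.pi / 4) + ρ ^ 2 * 1 / 24 =
      Real.pi ^ 2 / 12 - ρ * Real.pi / 8 + ρ ^ 2 / 24 := by ring
  rw [e4] at h12
  linarith

end Pool.Agent.Q275.DA
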